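import Pool.Agent.H76.SW.CT

/-!
`reachL` is primitive recursive.
-/

namespace Pool.Agent.H53.SW

open Pool.Agent.H76.SW

/-- argument type of the inner function -/
abbrev Arg := (((GrC × List TrC) × (ℕ × ℕ)) × TrC) × ((ℕ × ℕ) × ℕ)

theorem pT : Primrec fun p : Arg => p.1.2 := Primrec.snd.comp Primrec.fst
theorem pX : Primrec fun p : Arg => p.1.1.2 :=
  Primrec.snd.comp (Primrec.fst.comp Primrec.fst)
theorem pE : Primrec fun p : Arg => p.2 := Primrec.snd

theorem pT11 : Primrec fun p : Arg => p.1.2.1.1 := Primrec.fst.comp (Primrec.fst.comp pT)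
theorem pT121 : Primrec fun p : Arg => p.1.2.1.2.1 :=
  Primrec.fst.comp (Primrec.snd.comp (Primrec.fst.comp pT))
theorem pT122 : Primrec fun p : Arg => p.1.2.1.2.2 :=
  Primrec.snd.comp (Primrec.snd.comp (Primrec.fst.comp pT))
theorem pT2 : Primrec fun p : Arg => p.1.2.2 := Primrec.snd.comp pT
theorem pX1 : Primrec fun p : Arg => p.1.1.2.1 := Primrec.fst.comp pX
theorem pX2 : Primrec fun p : Arg => p.1.1.2.2 := Primrec.snd.comp pX
theorem pE11 : Primrec fun p : Arg => p.2.1.1 := Primrec.fst.comp (Primrec.fst.comp pE)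
theorem pE12 : Primrec fun p : Arg => p.2.1.2 := Primrec.snd.comp (Primrec.fst.comp pE)
theorem pE2 : Primrec fun p : Arg => p.2.2 := Primrec.snd.comp pE

/-- The inner function. -/
def inner (p : Arg) : List (ℕ × ℕ) :=
  if p.1.2.1.1 = p.1.1.2.2 ∧ p.1.2.1.2.1 = p.2.1.2 then
      (if p.1.2.1.2.2 = true then (if p.2.1.1 = p.1.1.2.1 then [(p.2.2, p.1.2.2)] else [])
        else (if p.2.2 = p.1.1.2.1 then [(p.2.1.1, p.1.2.2)] else []))
    else []

theorem single {α : Type} [Primcodable α] {f : α → ℕ} {g : α → ℕ} (hf : Primrec f)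
    (hg : Primrec g) : Primrec fun a => [(f a, g a)] :=
  Primrec.list_cons.comp (Primrec.pair hf hg) (Primrec.const [])

theorem inner_primrec : Primrec inner := by
  unfold inner
  refine Primrec.ite ((PrimrecRel.comp Primrec.eq pT11 pX2).and
    (PrimrecRel.comp Primrec.eq pT121 pE12)) ?_ (Primrec.const [])
  refine Primrec.ite (PrimrecRel.comp Primrec.eq pT122 (Primrec.const true)) ?_ ?_
  · exact Primrec.ite (PrimrecRel.comp Primrec.eq pE11 pX1) (single pE2 pT2) (Primrec.const [])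
  · exact Primrec.ite (PrimrecRel.comp Primrec.eq pE2 pX1) (single pE11 pT2) (Primrec.const [])

theorem succs_primrec :
    Primrec fun p : (GrC × List TrC) × (ℕ × ℕ) => succs p.1.1 p.1.2 p.2 := by
  have h2 : Primrec₂ fun (q : ((GrC × List TrC) × (ℕ × ℕ)) × TrC) (e : (ℕ × ℕ) × ℕ) =>
      inner (q, e) := inner_primrec
  have h1 : Primrec fun q : ((GrC × List TrC) × (ℕ × ℕ)) × TrC =>
      q.1.1.1.flatMap fun e => inner (q, e) :=
    Primrec.list_flatMap (Primrec.fst.comp (Primrec.fst.comp Primrec.fst)) h2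
  have h1' : Primrec₂ fun (p : (GrC × List TrC) × (ℕ × ℕ)) (t : TrC) =>
      p.1.1.flatMap fun e => inner ((p, t), e) := h1
  have h0 := Primrec.list_flatMap (f := fun p : (GrC × List TrC) × (ℕ × ℕ) => p.1.2)
    (Primrec.snd.comp Primrec.fst) h1'
  exact h0

theorem step_primrec : Primrec₂ fun (p : (GrC × List TrC) × List (ℕ × ℕ)) (L : List (ℕ × ℕ)) =>
    L ++ L.flatMap (succs p.1.1 p.1.2) := by
  have hs : Primrec₂ fun (q : ((GrC × List TrC) × List (ℕ × ℕ)) × List (ℕ × ℕ)) (x : ℕ × ℕ) =>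
      succs q.1.1.1 q.1.1.2 x :=
    succs_primrec.comp (Primrec.pair (Primrec.fst.comp (Primrec.fst.comp Primrec.fst))
      Primrec.snd)
  have hf : Primrec fun q : ((GrC × List TrC) × List (ℕ × ℕ)) × List (ℕ × ℕ) =>
      q.2.flatMap fun x => succs q.1.1.1 q.1.1.2 x :=
    Primrec.list_flatMap Primrec.snd hs
  exact Primrec.list_append.comp Primrec.snd hf

theorem pf_CRP : V_RP := by
  have hn : Primrec fun p : (GrC × List TrC) × List (ℕ × ℕ) =>
      2 * p.1.1.length * p.1.2.length + 1 :=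
    Primrec.succ.comp (Primrec.nat_mul.comp
      (Primrec.nat_mul.comp (Primrec.const 2)
        (Primrec.list_length.comp (Primrec.fst.comp Primrec.fst)))
      (Primrec.list_length.comp (Primrec.snd.comp Primrec.fst)))
  exact Primrec.nat_iterate hn Primrec.snd step_primrec

end Pool.Agent.H53.SW
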